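import Pool.Agent.W2helper63.LL.Stm

/-!
# Piece KLB of project LL: averaging over a finite subset of the Iwahori subgroup
-/

set_option autoImplicit false

noncomputable section

namespace Pool.Agent.W2helper74.LL

open Pool.Agent.W2helper63.LL Matrix WithZero
open scoped Classical

section sums

variable {L : Type} [Field L]

/-- representatives of the integers modulo `p ^ j` -/
def XX (p : L) : ℕ → Multiset L
  | 0 => {0}
  | j + 1 => XX p j + (XX p j).map fun x => x + p ^ j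

theorem card_XX (p : L) (j : ℕ) : Multiset.card (XX p j) = 2 ^ j := by
  induction j with
  | zero => simp [XX]
  | succ j ih => simp [XX, ih]; ring

theorem sum_XX_succ {V : Type} [AddCommMonoid V] (p : L) (j : ℕ) (φ : L → V) :
    ((XX p (j + 1)).map φ).sum = ((XX p j).map fun x => φ x + φ (x + p ^ j)).sum := by
  simp [XX, Multiset.sum_map_add, Multiset.map_map]

variable [Valued L (WithZero (Multiplicative ℤ))]

theorem v_XX (p : L) (hp : Valued.v p ≤ 1) (j : ℕ) : ∀ x ∈ XX p j, Valued.v x ≤ 1 := by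
  induction j with
  | zero => intro x hx; simp [XX] at hx; simp [hx]
  | succ j ih =>
    intro x hx
    simp only [XX, Multiset.mem_add, Multiset.mem_map] at hx
    rcases hx with hx | ⟨y, hy, rfl⟩
    · exact ih x hx
    · refine (Valuation.map_add _ _ _).trans (max_le (ih y hy) ?_)
      rw [map_pow]
      exact pow_le_one' hp j

/-- periodicity modulo `p ^ j` -/
def Per {V : Type} (φ : L → V) (j : ℕ) : Prop :=
  ∀ a b : L, Valued.v (a - b) ≤ exp (-(j : ℤ)) → φ a = φ b

theorem Per.mono {V : Type} {φ : L → V} {j k : ℕ} (h : Per φ j) (hjk : j ≤ k) : Per φ k := by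
  intro a b hab
  apply h
  refine hab.trans ?_
  rw [exp_le_exp]
  omega

theorem v_pow {p : Lˣ} (hR : Res2 L p) (j : ℕ) : Valued.v ((p : L) ^ j) = exp (-(j : ℤ)) := by
  rw [map_pow, hR.val, ← WithZero.exp_nsmul]
  simp

theorem v_zpow {p : Lˣ} (hR : Res2 L p) (j : ℤ) : Valued.v ((p : L) ^ j) = exp (-j) := by
  rw [map_zpow₀, hR.val, ← WithZero.exp_zsmul]
  simp

theorem lt_exp_iff (a : WithZero (Multiplicative ℤ)) (j : ℤ) : a < exp j ↔ a ≤ exp (j - 1) := by
  by_cases h : a = 0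
  · subst h
    simp
  · have : a = exp (log a) := (exp_log h).symm
    rw [this, exp_lt_exp, exp_le_exp]
    omega

theorem Per.step {V : Type} [AddCommGroup V] {p : Lˣ} (hR : Res2 L p) {φ : L → V} {j : ℕ}
    (h : Per φ (j + 1)) : Per (fun x => φ x + φ (x + (p : L) ^ j)) j := by
  intro a b hab
  have h2 : ∀ x : L, x + x = 0 := fun x => by
    have := hR.char
    linear_combination x * this
  have hneg : ∀ x : L, -x = x := fun x => by
    have := h2 x
    linear_combination -this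
  rcases lt_or_eq_of_le hab with hlt | heq
  · rw [lt_exp_iff] at hlt
    have e1 : φ a = φ b := h _ _ (by
      refine hlt.trans ?_
      rw [exp_le_exp]; push_cast; omega)
    have e2 : φ (a + (p : L) ^ j) = φ (b + (p : L) ^ j) := h _ _ (by
      have : a + (p : L) ^ j - (b + (p : L) ^ j) = a - b := by ring
      rw [this]
      refine hlt.trans ?_
      rw [exp_le_exp]; push_cast; omega)
    simp only [e1, e2]
  · have hp0 : (p : L) ^ j ≠ 0 := pow_ne_zero _ p.ne_zero
    have hk : Valued.v ((a - b) / (p : L) ^ j + 1) < 1 := by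
      apply hR.two
      · rw [map_div₀, heq, v_pow hR, div_self exp_ne_zero]
      · simp
    have hk2 : Valued.v (a - b + (p : L) ^ j) ≤ exp (-((j + 1 : ℕ) : ℤ)) := by
      have e : a - b + (p : L) ^ j = ((a - b) / (p : L) ^ j + 1) * (p : L) ^ j := by
        field_simp
      rw [e, map_mul, v_pow hR]
      have hk' : Valued.v ((a - b) / (p : L) ^ j + 1) ≤ exp (-1 : ℤ) := by
        have := (lt_exp_iff (Valued.v ((a - b) / (p : L) ^ j + 1)) 0).1 (by simpa using hk)
        simpa using this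
      calc _ ≤ exp (-1 : ℤ) * exp (-(j : ℤ)) := by gcongr
        _ = exp (-((j + 1 : ℕ) : ℤ)) := by
          rw [← exp_add]; congr 1; push_cast; ring
    have e1 : φ (a + (p : L) ^ j) = φ b := h _ _ (by
      have : a + (p : L) ^ j - b = a - b + (p : L) ^ j := by ring
      rw [this]; exact hk2)
    have e2 : φ a = φ (b + (p : L) ^ j) := h _ _ (by
      have : a - (b + (p : L) ^ j) = a - b + (p : L) ^ j := by
        have := hneg ((p : L) ^ j)
        linear_combination this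
      rw [this]; exact hk2)
    simp only [e1, e2]
    abel

theorem sum_shift {V : Type} [AddCommGroup V] {p : Lˣ} (hR : Res2 L p) (j : ℕ) :
    ∀ (φ : L → V), Per φ j → ∀ b : L, Valued.v b ≤ 1 →
      ((XX (p : L) j).map fun x => φ (x + b)).sum = ((XX (p : L) j).map φ).sum := by
  induction j with
  | zero =>
    intro φ h b hb
    simp only [XX, Multiset.map_singleton, Multiset.sum_singleton]
    apply h
    simpa using hb
  | succ j ih =>
    intro φ h b hb
    rw [sum_XX_succ, sum_XX_succ]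
    have := ih _ (h.step hR) b hb
    rw [← this]
    congr 1
    apply Multiset.map_congr rfl
    intro x _
    simp only [add_right_comm]

theorem sum_mult {V : Type} [AddCommGroup V] {p : Lˣ} (hR : Res2 L p) {φ : L → V} {j : ℕ}
    (h : Per φ j) (k : ℕ) :
      ((XX (p : L) (j + k)).map φ).sum = 2 ^ k • ((XX (p : L) j).map φ).sum := by
  induction k with
  | zero => simp
  | succ k ih =>
    rw [← add_assoc, sum_XX_succ]
    have : ∀ x : L, φ (x + (p : L) ^ (j + k)) = φ x := fun x => by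
      apply h
      have e : x + (p : L) ^ (j + k) - x = (p : L) ^ (j + k) := by ring
      rw [e, v_pow hR, exp_le_exp]
      push_cast; omega
    simp only [this]
    rw [Multiset.sum_map_add, ih, pow_succ, mul_smul, two_smul, smul_add]

end sums

section grp

variable {L : Type} [Field L]

/-- the lower triangular matrix `(a 0; c d)` -/
def lor (a : Lˣ) (c : L) (d : Lˣ) : GL (Fin 2) L where
  val := !![(a : L), 0; c, (d : L)]
  inv := !![((a⁻¹ : Lˣ) : L), 0; -((a⁻¹ : Lˣ) : L) * c * ((d⁻¹ : Lˣ) : L), ((d⁻¹ : Lˣ) : L)]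
  val_inv := by
    have ha := a.ne_zero
    have hd := d.ne_zero
    ext i j
    fin_cases i <;> fin_cases j <;> simp [Matrix.mul_apply, Fin.sum_univ_two]
    field_simp
    ring
  inv_val := by
    have ha := a.ne_zero
    have hd := d.ne_zero
    ext i j
    fin_cases i <;> fin_cases j <;> simp [Matrix.mul_apply, Fin.sum_univ_two]
    field_simp
    ring

theorem bor_mul (a a' : Lˣ) (x x' : L) (d d' : Lˣ) :
    bor a x d * bor a' x' d' = bor (a * a') (a * x' + x * d') (d * d') := by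
  apply Units.ext
  ext i j
  fin_cases i <;> fin_cases j <;> simp [bor, Matrix.mul_apply, Fin.sum_univ_two]

theorem tt_zpow (p : Lˣ) (n : ℤ) : tt p ^ n = bor (p ^ n) 0 1 := by
  have h1 : ∀ n : ℕ, tt p ^ n = bor (p ^ n) 0 1 := by
    intro n
    induction n with
    | zero =>
      apply Units.ext
      ext i j
      fin_cases i <;> fin_cases j <;> simp [bor]
    | succ n ih => rw [pow_succ, ih, tt, bor_mul]; simp [pow_succ]
  rcases n.eq_nat_or_neg with ⟨m, rfl | rfl⟩
  · rw [zpow_natCast, h1, zpow_natCast]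
  · rw [_root_.zpow_neg, zpow_natCast, h1, inv_eq_iff_mul_eq_one, bor_mul]
    apply Units.ext
    ext i j
    fin_cases i <;> fin_cases j <;> simp [bor]

theorem nl_mul (x y : L) : nl x * nl y = nl (x + y) := by
  apply Units.ext
  ext i j
  fin_cases i <;> fin_cases j <;> simp [nl, Matrix.mul_apply, Fin.sum_univ_two]

theorem nu_mul (x y : L) : nu x * nu y = nu (x + y) := by
  rw [nu, nu, bor_mul]; simp [nu, add_comm]

theorem ww_nu (p : Lˣ) (x : L) : ww p * nu x = nl (p * x) * ww p := by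
  apply Units.ext
  ext i j
  fin_cases i <;> fin_cases j <;> simp [nl, nu, ww, bor, Matrix.mul_apply, Fin.sum_univ_two]

theorem ww_tt (p : Lˣ) (n : ℤ) :
    ww p * tt p ^ n = tt p ^ (-n) * ww p * bor (p ^ n) 0 (p ^ n) := by
  rw [tt_zpow, tt_zpow]
  apply Units.ext
  have hp : (p : L) ≠ 0 := p.ne_zero
  ext i j
  fin_cases i <;> fin_cases j <;>
    simp [ww, bor, Matrix.mul_apply, Fin.sum_univ_two]
  field_simp

theorem tt_nl (p : Lˣ) (n : ℤ) (f : L) :
    nl f * tt p ^ n = tt p ^ n * nl (f * (p : L) ^ n) := by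
  rw [tt_zpow]
  apply Units.ext
  ext i j
  fin_cases i <;> fin_cases j <;>
    simp [nl, bor, Matrix.mul_apply, Fin.sum_univ_two]

/-- first matrix identity: `a` integral -/
theorem id1 (p : Lˣ) (n : ℤ) (a c : L) (δ : Lˣ) (hδ : (δ : L) = 1 + c * a) :
    nl c * (nu a * tt p ^ n) = nu (a / δ) * tt p ^ n * lor (δ⁻¹) (c * (p : L) ^ n) δ := by
  rw [tt_zpow]
  apply Units.ext
  have hd : (δ : L) ≠ 0 := δ.ne_zero
  ext i j
  fin_cases i <;> fin_cases j <;>
    simp [nl, nu, lor, bor, Matrix.mul_apply, Fin.sum_univ_two]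
  · field_simp
    rw [hδ]; ring
  · rw [hδ]; ring

/-- second matrix identity -/
theorem id2 (p : Lˣ) (n k : ℤ) (a : L) (β : Lˣ) (ha : a * (p : L) ^ k = β) :
    nu a * tt p ^ n = nl (a⁻¹) * tt p ^ (-(n + 2 * k - 1)) * ww p *
      bor (p ^ (n + k - 1)) 0 (p ^ (n + k - 1)) * lor (-β⁻¹) ((p : L) ^ (n + k)) β := by
  rw [tt_zpow, tt_zpow]
  apply Units.ext
  have hb : (β : L) ≠ 0 := β.ne_zero
  have hp : (p : L) ≠ 0 := p.ne_zero
  have ha0 : a ≠ 0 := by rintro rfl; rw [zero_mul] at ha; exact hb ha.symm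
  have hb' : (β : L)⁻¹ = a⁻¹ * ((p : L) ^ k)⁻¹ := by rw [← ha, mul_inv]
  have hk0 : (p : L) ^ k ≠ 0 := zpow_ne_zero _ hp
  have e1 : (p : L) ^ (1 - (n + 2 * k)) * (p : L) ^ (n + k - 1) = ((p : L) ^ k)⁻¹ := by
    rw [← zpow_add₀ hp, ← _root_.zpow_neg]; congr 1; ring
  have e2 : (p : L) ^ (n + k) = (p : L) ^ n * (p : L) ^ k := zpow_add₀ hp _ _
  have e3 : (p : L) * (p : L) ^ (n + k - 1) = (p : L) ^ n * (p : L) ^ k := by
    rw [← zpow_one_add₀ hp, ← zpow_add₀ hp]; congr 1; ring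
  ext i j
  fin_cases i <;> fin_cases j <;>
    simp [nl, nu, lor, ww, bor, Matrix.mul_apply, Fin.sum_univ_two]
  · rw [e1, e2]; field_simp
  · rw [e1, ← ha]; field_simp
  · rw [mul_assoc a⁻¹, e1, e2, e3, hb']; field_simp; ring
  · rw [mul_assoc a⁻¹, e1, ← ha]; field_simp

variable [Valued L (WithZero (Multiplicative ℤ))]

theorem iw_lor (a : Lˣ) (c : L) (d : Lˣ) (ha : Valued.v (a : L) = 1) (hd : Valued.v (d : L) = 1)
    (hc : Valued.v c < 1) : Iw (lor a c d) := by
  refine ⟨?_, by simpa [lor] using hc⟩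
  intro i j
  have e1 : ((lor a c d)⁻¹ : GL (Fin 2) L).1 =
    !![((a⁻¹ : Lˣ) : L), 0; -((a⁻¹ : Lˣ) : L) * c * ((d⁻¹ : Lˣ) : L), ((d⁻¹ : Lˣ) : L)] := rfl
  have e2 : (lor a c d).1 = !![(a : L), 0; c, (d : L)] := rfl
  rw [e1, e2]
  fin_cases i <;> fin_cases j <;> simp [ha, hd, hc.le]

theorem iw_nl (c : L) (hc : Valued.v c < 1) : Iw (nl c) := by
  have : nl c = lor 1 c 1 := by
    apply Units.ext
    ext i j
    fin_cases i <;> fin_cases j <;> simp [nl, lor]
  rw [this]
  exact iw_lor _ _ _ (by simp) (by simp) hc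

theorem iw_nu (x : L) (hx : Valued.v x ≤ 1) : Iw (nu x) := by
  refine ⟨?_, by simp [nu, bor]⟩
  intro i j
  have e1 : ((nu x)⁻¹ : GL (Fin 2) L).1 =
    !![(((1 : Lˣ)⁻¹ : Lˣ) : L), -(((1 : Lˣ)⁻¹ : Lˣ) : L) * x * (((1 : Lˣ)⁻¹ : Lˣ) : L); 0,
      (((1 : Lˣ)⁻¹ : Lˣ) : L)] := rfl
  have e2 : (nu x).1 = !![((1 : Lˣ) : L), x; 0, ((1 : Lˣ) : L)] := rfl
  rw [e1, e2]
  fin_cases i <;> fin_cases j <;> simp [hx]

theorem iw_mul_nunl (x c : L) (hx : Valued.v x ≤ 1) (hc : Valued.v c < 1) :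
    Iw (nu x * nl c) := by
  have e1 : ((nu x * nl c)⁻¹ : GL (Fin 2) L).1 = !![1, -x; -c, 1 + c * x] := by
    rw [_root_.mul_inv_rev]
    have f1 : ((nu x)⁻¹ : GL (Fin 2) L).1 = !![(((1 : Lˣ)⁻¹ : Lˣ) : L),
      -(((1 : Lˣ)⁻¹ : Lˣ) : L) * x * (((1 : Lˣ)⁻¹ : Lˣ) : L); 0,
      (((1 : Lˣ)⁻¹ : Lˣ) : L)] := rfl
    have f2 : ((nl c)⁻¹ : GL (Fin 2) L).1 = !![1, 0; -c, 1] := rfl
    rw [Units.val_mul, f1, f2]
    ext i j
    fin_cases i <;> fin_cases j <;> simp [Matrix.mul_apply, Fin.sum_univ_two]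
    ring
  have e2 : (nu x * nl c).1 = !![1 + x * c, x; c, 1] := by
    ext i j
    fin_cases i <;> fin_cases j <;>
      simp [nu, nl, bor, Matrix.mul_apply, Fin.sum_univ_two]
  have h1 : Valued.v (1 + x * c) ≤ 1 := by
    refine (Valuation.map_add _ _ _).trans (max_le (by simp) ?_)
    rw [map_mul]
    exact mul_le_one' hx hc.le
  have h2 : Valued.v (1 + c * x) ≤ 1 := by rwa [mul_comm]
  refine ⟨?_, by rw [e2]; simpa using hc⟩
  intro i j
  rw [e1, e2]
  fin_cases i <;> fin_cases j <;> simp [hx, hc.le, h1, h2]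

end grp

section main

variable {L : Type} [Field L] [Valued L (WithZero (Multiplicative ℤ))] {p : Lˣ}
  {V : Type} [AddCommGroup V] [Module ℂ V] {ρ : Representation ℂ (GL (Fin 2) L) V} {u : V}

theorem rho_sum (ρ : Representation ℂ (GL (Fin 2) L) V) (g : GL (Fin 2) L) {α : Type}
    (S : Multiset α) (φ : α → V) : ρ g (S.map φ).sum = (S.map fun x => ρ g (φ x)).sum := by
  induction S using Multiset.induction_on with
  | empty => simp
  | cons a S ih => simp [ih]

theorem v_lt_one_of (hR : Res2 L p) {x : L} (hx : Valued.v x ≤ 1) :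
    Valued.v ((p : L) * x) < 1 := by
  rw [map_mul, hR.val]
  calc exp (-1 : ℤ) * Valued.v x ≤ exp (-1 : ℤ) * 1 := by gcongr
    _ < 1 := by rw [mul_one, ← exp_zero, exp_lt_exp]; omega

theorem u_scal (hu : StVec ρ p u) (g : GL (Fin 2) L) (z : Lˣ) :
    ρ (g * bor z 0 z) u = ρ g u := by
  rw [map_mul, Module.End.mul_apply, hu.cen]

theorem u_iw (hu : StVec ρ p u) (g h : GL (Fin 2) L) (hh : Iw h) :
    ρ (g * h) u = ρ g u := by
  rw [map_mul, Module.End.mul_apply, hu.iw h hh]

theorem u_ww (hu : StVec ρ p u) (g : GL (Fin 2) L) :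
    ρ (g * ww p) u = -ρ g u := by
  rw [map_mul, Module.End.mul_apply, hu.w, map_neg]

/-- refinement -/
theorem ref
    (h2 : ∀ (a : L) (n : ℤ), U ρ p u a n = U ρ p u a (n + 1) + U ρ p u (a + (p : L) ^ n) (n + 1))
    (j : ℕ) (b : L) :
    ((XX (p : L) j).map fun x => U ρ p u (x + b) j).sum = U ρ p u b 0 := by
  induction j with
  | zero => simp [XX]
  | succ j ih =>
    rw [← ih, sum_XX_succ]
    congr 1
    apply Multiset.map_congr rfl
    intro x _
    rw [h2 (x + b) j, zpow_natCast, add_right_comm]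
    push_cast
    rfl

theorem U_zero (hu : StVec ρ p u) (b : L) (hb : Valued.v b ≤ 1) : U ρ p u b 0 = u := by
  rw [U, zpow_zero, mul_one]
  exact hu.iw _ (iw_nu b hb)

/-- the function `φ` -/
def ph (ρ : Representation ℂ (GL (Fin 2) L) V) (p : Lˣ) (u : V) (m : ℕ) (y : L) : V :=
  ρ (nl ((p : L) * y) * tt p ^ (-(m : ℤ))) u

theorem per_ph (hR : Res2 L p) (hu : StVec ρ p u) (m : ℕ) : Per (ph ρ p u m) m := by
  intro a b hab
  have hp : (p : L) ≠ 0 := p.ne_zero
  have e : nl ((p : L) * a) = nl ((p : L) * b) * nl ((p : L) * (a - b)) := by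
    rw [nl_mul]; congr 1; ring
  rw [ph, ph, e, mul_assoc, tt_nl, ← mul_assoc]
  apply u_iw hu
  apply iw_nl
  rw [map_mul, map_mul, hR.val, v_zpow hR]
  calc exp (-1 : ℤ) * Valued.v (a - b) * exp (- -(m : ℤ))
      ≤ exp (-1 : ℤ) * exp (-(m : ℤ)) * exp (- -(m : ℤ)) := by gcongr
    _ < 1 := by
      rw [← exp_add, ← exp_add, ← exp_zero, exp_lt_exp]; omega

theorem sum_ph (hR : Res2 L p) (hu : StVec ρ p u)
    (h2 : ∀ (a : L) (n : ℤ), U ρ p u a n = U ρ p u a (n + 1) + U ρ p u (a + (p : L) ^ n) (n + 1))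
    (m : ℕ) : ((XX (p : L) m).map (ph ρ p u m)).sum = u := by
  have h := ref h2 m 0
  rw [U_zero hu 0 (by simp)] at h
  have h' := congrArg (ρ (ww p)) h
  rw [rho_sum, hu.w] at h'
  have e : ∀ x : L, ρ (ww p) (U ρ p u (x + 0) m) = -ph ρ p u m x := by
    intro x
    rw [U, add_zero, ← Module.End.mul_apply, ← map_mul, ← mul_assoc, ww_nu, mul_assoc, ww_tt,
      ← mul_assoc, u_scal hu, ← mul_assoc, u_ww hu]
    rfl
  simp only [e] at h'
  have e2 : ((XX (p : L) m).map fun x => -ph ρ p u m x).sum =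
      -((XX (p : L) m).map (ph ρ p u m)).sum := by
    rw [Multiset.sum_map_neg]
  rw [e2] at h'
  exact neg_injective h'

/-- the finite subset of the Iwahori subgroup -/
def HH (p : Lˣ) (n M : ℕ) : Multiset (GL (Fin 2) L) :=
  ((XX (p : L) n) ×ˢ (XX (p : L) M)).map fun q => nu q.1 * nl ((p : L) * q.2)

theorem HH_sum (ρ : Representation ℂ (GL (Fin 2) L) V) (p : Lˣ) (n M : ℕ) (w : V) :
    ((HH p n M).map fun h => ρ h w).sum = ((XX (p : L) n).map fun x =>
      ((XX (p : L) M).map fun y => ρ (nu x * nl ((p : L) * y)) w).sum).sum := by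
  rw [HH, Multiset.map_map]
  exact sum_prod _ _ fun x y => ρ (nu x * nl ((p : L) * y)) w

theorem HH_iw (hR : Res2 L p) (n M : ℕ) : ∀ h ∈ HH p n M, Iw h := by
  intro h hh
  rw [HH, Multiset.mem_map] at hh
  obtain ⟨⟨x, y⟩, hxy, rfl⟩ := hh
  rw [Multiset.mem_product] at hxy
  have hp1 : Valued.v (p : L) ≤ 1 := by
    rw [hR.val, ← exp_zero, exp_le_exp]; omega
  exact iw_mul_nunl _ _ (v_XX _ hp1 _ _ hxy.1) (v_lt_one_of hR (v_XX _ hp1 _ _ hxy.2))

theorem HH_ne (p : Lˣ) (n M : ℕ) : HH p n M ≠ 0 := by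
  intro h
  have := congrArg Multiset.card h
  rw [HH, Multiset.card_map, Multiset.card_product, card_XX, card_XX] at this
  simp at this

theorem case1 (hR : Res2 L p) (hu : StVec ρ p u)
    (h2 : ∀ (a : L) (n : ℤ), U ρ p u a n = U ρ p u a (n + 1) + U ρ p u (a + (p : L) ^ n) (n + 1))
    (n M : ℕ) (a : L) (ha : Valued.v a ≤ 1) :
    ((HH p n M).map fun h => ρ h (U ρ p u a n)).sum = 2 ^ M • u := by
  have hp1 : Valued.v (p : L) ≤ 1 := by
    rw [hR.val, ← exp_zero, exp_le_exp]; omega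
  rw [HH_sum, Multiset.sum_map_sum_map]
  have key : ∀ y ∈ XX (p : L) M,
      ((XX (p : L) n).map fun x => ρ (nu x * nl ((p : L) * y)) (U ρ p u a n)).sum = u := by
    intro y hy
    have hy1 := v_XX (p : L) hp1 M y hy
    have hc : Valued.v ((p : L) * y) < 1 := v_lt_one_of hR hy1
    have hca : Valued.v ((p : L) * y * a) < 1 := by
      rw [map_mul]
      exact (mul_le_of_le_one_right' ha).trans_lt hc
    have hd : Valued.v (1 + (p : L) * y * a) = 1 := Valuation.map_one_add_of_lt _ hca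
    have hd0 : 1 + (p : L) * y * a ≠ 0 := by intro h; rw [h] at hd; simp at hd
    have e : ∀ x : L, ρ (nu x * nl ((p : L) * y)) (U ρ p u a n) =
        U ρ p u (x + a / (Units.mk0 _ hd0 : Lˣ)) n := by
      intro x
      rw [U, ← Module.End.mul_apply, ← map_mul, mul_assoc,
        id1 p n a ((p : L) * y) (Units.mk0 _ hd0) rfl, ← mul_assoc,
        u_iw hu _ _ (iw_lor _ _ _ ?_ hd ?_), ← mul_assoc, nu_mul]
      · rfl
      · rw [Units.val_inv_eq_inv_val, map_inv₀, Units.val_mk0, hd, inv_one]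
      · rw [zpow_natCast, map_mul, map_pow]
        exact (mul_le_of_le_one_right' (pow_le_one' hp1 n)).trans_lt hc
    simp only [e]
    rw [ref h2, U_zero hu]
    rw [Units.val_mk0, map_div₀, hd, div_one]
    exact ha
  rw [Multiset.map_congr rfl key, Multiset.map_const', Multiset.sum_replicate, card_XX]

theorem case2 (hR : Res2 L p) (hu : StVec ρ p u)
    (h2 : ∀ (a : L) (n : ℤ), U ρ p u a n = U ρ p u a (n + 1) + U ρ p u (a + (p : L) ^ n) (n + 1))
    (n m d k : ℕ) (hk : 1 ≤ k) (hm : m + 1 = n + 2 * k) (a : L)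
    (ha : Valued.v a = exp (k : ℤ)) :
    ((HH p n (m + d)).map fun h => ρ h (U ρ p u a n)).sum = -(2 ^ n • 2 ^ d • u) := by
  have hp1 : Valued.v (p : L) ≤ 1 := by
    rw [hR.val, ← exp_zero, exp_le_exp]; omega
  have hp : (p : L) ≠ 0 := p.ne_zero
  have ha0 : a ≠ 0 := by rintro rfl; rw [map_zero] at ha; exact exp_ne_zero ha.symm
  have hb0 : a * (p : L) ^ (k : ℤ) ≠ 0 := mul_ne_zero ha0 (zpow_ne_zero _ hp)
  have hb : Valued.v (a * (p : L) ^ (k : ℤ)) = 1 := by
    rw [map_mul, ha, v_zpow hR, ← exp_add, add_neg_cancel, exp_zero]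
  have e1 : U ρ p u a n = -ρ (nl a⁻¹ * tt p ^ (-(m : ℤ))) u := by
    rw [U, id2 p n k a (Units.mk0 _ hb0) rfl, u_iw hu _ _ (iw_lor _ _ _ ?_ hb ?_), u_scal hu,
      u_ww hu]
    · congr 5
      omega
    · rw [Units.val_neg, Valuation.map_neg, Units.val_inv_eq_inv_val, map_inv₀, Units.val_mk0,
        hb, inv_one]
    · rw [v_zpow hR, ← exp_zero, exp_lt_exp]
      omega
  have e2 : ∀ x y : L, ρ (nu x * nl ((p : L) * y)) (U ρ p u a n) =
      ρ (nu x) (-ph ρ p u m (y + ((p : L) * a)⁻¹)) := by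
    intro x y
    rw [e1, map_mul, Module.End.mul_apply, map_neg (ρ (nl ((p : L) * y))),
      ← Module.End.mul_apply (ρ (nl ((p : L) * y))), ← map_mul, ← mul_assoc, nl_mul, ph]
    congr 6
    field_simp
  have hv : Valued.v (((p : L) * a)⁻¹) ≤ 1 := by
    rw [map_inv₀, map_mul, hR.val, ha, ← exp_add, ← WithZero.exp_neg, ← exp_zero, exp_le_exp]
    omega
  rw [HH_sum]
  have key : ∀ x ∈ XX (p : L) n, ((XX (p : L) (m + d)).map fun y =>
      ρ (nu x * nl ((p : L) * y)) (U ρ p u a n)).sum = -(2 ^ d • u) := by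
    intro x hx
    simp only [e2]
    rw [← rho_sum, Multiset.sum_map_neg,
      sum_shift hR (m + d) _ ((per_ph hR hu m).mono (Nat.le_add_right m d)) _ hv,
      sum_mult hR (per_ph hR hu m), sum_ph hR hu h2, map_neg, map_nsmul,
      hu.iw _ (iw_nu x (v_XX _ hp1 _ _ hx))]
  rw [Multiset.map_congr rfl key, Multiset.map_const', Multiset.sum_replicate, card_XX, smul_neg]

end main

open scoped Classical in
theorem klb : S_KLB := by
  intro L _ _ p hR V _ _ ρ u hu _ h2 n c
  obtain ⟨M, hM⟩ : ∃ M : ℕ, ∀ a ∈ c.support, ∀ k : ℕ, Valued.v a = exp (k : ℤ) →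
      n + 2 * k ≤ M := by
    refine ⟨c.support.sup fun a => n + 2 * (log (Valued.v a)).toNat, ?_⟩
    intro a ha k hk
    have h := Finset.le_sup (f := fun a : L => n + 2 * (log (Valued.v a)).toNat) ha
    simp only [hk, log_exp, Int.toNat_natCast] at h
    exact h
  refine ⟨HH p n M, 2 ^ (M + 1), HH_ne p n M, by positivity, HH_iw hR n M, ?_⟩
  have hone : ∀ a ∈ c.support, ((HH p n M).map fun h => ρ h (U ρ p u a n)).sum =
      ((2 : ℂ) ^ (M + 1) * lam a) • u := by
    intro a ha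
    by_cases h : Valued.v a ≤ 1
    · rw [case1 hR hu h2 n M a h, lam, if_pos h, ← Nat.cast_smul_eq_nsmul ℂ]
      congr 1
      push_cast
      ring
    · have h0 : Valued.v a ≠ 0 := by intro h0; apply h; rw [h0]; exact zero_le
      have hlog : 0 < log (Valued.v a) := by
        rw [not_le, ← exp_log h0, ← exp_zero, exp_lt_exp] at h
        exact h
      obtain ⟨k, hk⟩ := Int.eq_ofNat_of_zero_le hlog.le
      have hva : Valued.v a = exp (k : ℤ) := by rw [← hk, exp_log h0]
      have hk1 : 1 ≤ k := by omega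
      have hMk := hM a ha k hva
      obtain ⟨d, hd⟩ : ∃ d, M = (n + 2 * k - 1) + d := ⟨M - (n + 2 * k - 1), by omega⟩
      rw [lam, if_neg h, hk]
      subst hd
      rw [case2 hR hu h2 n (n + 2 * k - 1) d k hk1 (by omega) a hva, smul_smul,
        ← Nat.cast_smul_eq_nsmul ℂ, ← neg_smul]
      congr 1
      have e : n + 2 * k - 1 + d + 1 = n + d + 2 * k := by omega
      rw [e, _root_.zpow_neg, zpow_natCast]
      push_cast
      have h4 : (4 : ℂ) ^ k = 2 ^ (2 * k) := by rw [pow_mul]; norm_num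
      rw [h4, pow_add 2 (n + d)]
      have : (2 : ℂ) ^ (2 * k) ≠ 0 := pow_ne_zero _ two_ne_zero
      field_simp
      ring
  have hswap : ∀ H : Multiset (GL (Fin 2) L),
      (H.map fun h => ρ h (c.sum fun a z => z • U ρ p u a n)).sum =
        c.sum fun a z => z • (H.map fun h => ρ h (U ρ p u a n)).sum := by
    intro H
    induction H using Multiset.induction_on with
    | empty => simp
    | cons g H ih =>
      simp only [Multiset.map_cons, Multiset.sum_cons, ih, smul_add, Finsupp.sum_add]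
      congr 1
      simp [Finsupp.sum, map_sum]
  rw [hswap, Finsupp.sum, Finsupp.sum, Finset.mul_sum, Finset.sum_smul]
  apply Finset.sum_congr rfl
  intro a ha
  rw [hone a ha, smul_smul]
  congr 1
  push_cast
  ring

end Pool.Agent.W2helper74.LL
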